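import Pool.Agent.H35.LIM.DISa

/-!
# Module DIS: a potential is approximated by sums of kernels with equal weights
-/

set_option autoImplicit false

open Complex MeasureTheory Set Filter Topology Metric

namespace Pool.Agent.H35.LIM

open Pool.Agent.H20.LIM Pool.Agent.H23.GLM Pool.Agent.H23.DZ

variable {P b s : ℝ} {N : ℕ} {E : Fin N → Set ℂ} {c : Fin N → ℂ} {τ : Equiv.Perm (Fin N)}

theorem decomp (g : Grid P b s N E c τ) {a : ℂ → ℝ} (ha : Continuous a)
    (h0 : ∀ z, b ≤ |z.re| → a z = 0) {K : ℂ → ℝ} (hK : IntegrableOn K (box P))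
    (k : Fin N → ℝ) (m : Fin N → ℕ) (Λ : ℝ) :
    (∑ i, m i * k i) / Λ - ∫ ξ in cell P, K ξ * a ξ =
      ∑ i, ((m i / Λ - ∫ ξ in E i, a ξ) * k i + ∫ ξ in E i, (k i - K ξ) * a ξ) := by
  have h1 : IntegrableOn (fun ξ => K ξ * a ξ) (box P) :=
    hK.mul_continuousOn ha.continuousOn (isCompact_box P)
  have h2 : IntegrableOn a (box P) := ha.continuousOn.integrableOn_compact (isCompact_box P)
  have hsub : ∀ i, E i ⊆ box P := fun i => (g.sub i).trans (cell_sub_box P)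
  rw [g.sum (h1.mono_set (cell_sub_box P)) (fun z hz => by rw [h0 z hz, mul_zero]),
    Finset.sum_div, ← Finset.sum_sub_distrib]
  refine Finset.sum_congr rfl fun i _ => ?_
  have h3 : ∫ ξ in E i, (k i - K ξ) * a ξ =
      k i * (∫ ξ in E i, a ξ) - ∫ ξ in E i, K ξ * a ξ := by
    have e : ∀ ξ, (k i - K ξ) * a ξ = k i * a ξ - K ξ * a ξ := fun ξ => by ring
    simp only [e]
    rw [integral_sub ((h2.mono_set (hsub i)).const_mul _) (h1.mono_set (hsub i)),
      integral_const_mul]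
  rw [h3]
  ring

theorem floor_bd {Λ α : ℝ} (hΛ : 0 < Λ) (hα : 0 ≤ α) : |(⌊Λ * α⌋₊ : ℝ) / Λ - α| ≤ 1 / Λ := by
  have h1 : (⌊Λ * α⌋₊ : ℝ) ≤ Λ * α := Nat.floor_le (by positivity)
  have h2 : Λ * α < ⌊Λ * α⌋₊ + 1 := Nat.lt_floor_add_one _
  have e : (⌊Λ * α⌋₊ : ℝ) / Λ - α = -((Λ * α - ⌊Λ * α⌋₊) / Λ) := by
    field_simp
    ring
  rw [e, abs_neg, abs_of_nonneg (div_nonneg (by linarith) hΛ.le)]
  gcongr
  linarith

theorem L1_bd (hGL : T_GL) {θ R C δ' Λ : ℝ} (hθ : 0 < θ) (hR : 0 < R) (hC : 0 ≤ C) (hΛ : 0 < Λ)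
    (hδ' : 0 ≤ δ') (g : Grid P b s N E c τ) (hb : b ≤ 1) {a : ℂ → ℝ} (ha : Continuous a)
    (hap : ∀ z, 0 ≤ a z) (h0 : ∀ z, b ≤ |z.re| → a z = 0)
    (h1 : ∀ ζ : ℂ, |ζ.re| ≤ 1 → L1 R (fun z => G θ (z - ζ)) ≤ ENNReal.ofReal C)
    (h2 : ∀ ζ ζ' : ℂ, |ζ.re| ≤ 1 → |ζ'.re| ≤ 1 → ‖ζ - ζ'‖ ≤ s →
      L1 R (fun z => G θ (z - ζ) - G θ (z - ζ')) ≤ ENNReal.ofReal δ') :
    L1 R (fun z => (∑ i, (⌊Λ * ∫ ξ in E i, a ξ⌋₊ : ℝ) * G θ (z - c i)) / Λ -
      ∫ ξ in cell P, G θ (z - ξ) * a ξ) ≤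
      ENNReal.ofReal (N * C / Λ + δ' * ∫ ξ in cell P, a ξ) := by
  have hai : IntegrableOn a (box P) := ha.continuousOn.integrableOn_compact (isCompact_box P)
  have hα : ∀ i, 0 ≤ ∫ ξ in E i, a ξ := fun i => integral_nonneg hap
  have hG := measurable_G θ
  have hcr : ∀ i, |(c i).re| ≤ 1 := fun i => (g.cre i).trans hb
  unfold L1
  calc ∫⁻ z in closedBall (0 : ℂ) R, ‖(∑ i, (⌊Λ * ∫ ξ in E i, a ξ⌋₊ : ℝ) * G θ (z - c i)) / Λ -
        ∫ ξ in cell P, G θ (z - ξ) * a ξ‖ₑ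
      ≤ ∫⁻ z in closedBall (0 : ℂ) R, ∑ i, (ENNReal.ofReal (1 / Λ) * ‖G θ (z - c i)‖ₑ +
        ∫⁻ ξ in E i, ‖G θ (z - c i) - G θ (z - ξ)‖ₑ * ‖a ξ‖ₑ) := by
        refine lintegral_mono fun z => ?_
        simp only
        rw [decomp g ha h0 (integrableOn_G_sub hGL hθ P z)]
        refine (enorm_sum_le _ _).trans (Finset.sum_le_sum fun i _ => ?_)
        refine (enorm_add_le _ _).trans (add_le_add ?_ ?_)
        · rw [enorm_mul]
          gcongr
          rw [Real.enorm_eq_ofReal_abs]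
          exact ENNReal.ofReal_le_ofReal (floor_bd hΛ (hα i))
        · refine (enorm_integral_le_lintegral_enorm _).trans (le_of_eq ?_)
          refine lintegral_congr fun ξ => ?_
          rw [enorm_mul]
    _ = ∑ i, (ENNReal.ofReal (1 / Λ) * (∫⁻ z in closedBall (0 : ℂ) R, ‖G θ (z - c i)‖ₑ) +
        ∫⁻ z in closedBall (0 : ℂ) R, ∫⁻ ξ in E i, ‖G θ (z - c i) - G θ (z - ξ)‖ₑ * ‖a ξ‖ₑ) := by
        have m1 : ∀ i, Measurable fun z : ℂ => ENNReal.ofReal (1 / Λ) * ‖G θ (z - c i)‖ₑ := by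
          intro i
          exact (hG.comp (measurable_id.sub_const (c i))).enorm.const_mul _
        have m2 : ∀ i, Measurable fun z : ℂ =>
            ∫⁻ ξ in E i, ‖G θ (z - c i) - G θ (z - ξ)‖ₑ * ‖a ξ‖ₑ := by
          intro i
          refine Measurable.lintegral_prod_right' (f := fun p : ℂ × ℂ =>
            ‖G θ (p.1 - c i) - G θ (p.1 - p.2)‖ₑ * ‖a p.2‖ₑ) ?_
          refine Measurable.mul (Measurable.enorm ?_) ((ha.measurable.comp measurable_snd).enorm)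
          exact (hG.comp (measurable_fst.sub_const (c i))).sub
            (hG.comp (measurable_fst.sub measurable_snd))
        refine (lintegral_finsetSum _ fun i _ => (m1 i).add (m2 i)).trans ?_
        refine Finset.sum_congr rfl fun i _ => ?_
        refine (lintegral_add_left (m1 i) _).trans ?_
        have m5 : Measurable fun z : ℂ => ‖G θ (z - c i)‖ₑ :=
          (hG.comp (measurable_id.sub_const (c i))).enorm
        rw [lintegral_const_mul _ m5]
    _ ≤ ∑ i, (ENNReal.ofReal (1 / Λ) * ENNReal.ofReal C +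
        ENNReal.ofReal δ' * ENNReal.ofReal (∫ ξ in E i, a ξ)) := by
        refine Finset.sum_le_sum fun i _ => add_le_add ?_ ?_
        · gcongr
          exact h1 (c i) (hcr i)
        · have m3 : Measurable fun p : ℂ × ℂ =>
              ‖G θ (p.1 - c i) - G θ (p.1 - p.2)‖ₑ * ‖a p.2‖ₑ := by
            refine Measurable.mul (Measurable.enorm ?_) ((ha.measurable.comp measurable_snd).enorm)
            exact (hG.comp (measurable_fst.sub_const (c i))).sub
              (hG.comp (measurable_fst.sub measurable_snd))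
          rw [lintegral_lintegral_swap (f := fun z ξ : ℂ =>
            ‖G θ (z - c i) - G θ (z - ξ)‖ₑ * ‖a ξ‖ₑ) m3.aemeasurable]
          have hi : ENNReal.ofReal (∫ ξ in E i, a ξ) = ∫⁻ ξ in E i, ‖a ξ‖ₑ := by
            rw [← ofReal_integral_norm_eq_lintegral_enorm
              (hai.mono_set ((g.sub i).trans (cell_sub_box P)))]
            congr 1
            refine integral_congr_ae (Eventually.of_forall fun ξ => ?_)
            exact (Real.norm_of_nonneg (hap ξ)).symm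
          rw [hi, ← lintegral_const_mul _ ha.measurable.enorm]
          refine setLIntegral_mono' (g.me i) fun ξ hξ => ?_
          have m4 : Measurable fun z : ℂ => ‖G θ (z - c i) - G θ (z - ξ)‖ₑ :=
            ((hG.comp (measurable_id.sub_const (c i))).sub
              (hG.comp (measurable_id.sub_const ξ))).enorm
          rw [lintegral_mul_const _ m4]
          gcongr
          refine h2 (c i) ξ (hcr i) ((g.re i ξ hξ).1.trans hb) ?_
          rw [norm_sub_rev]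
          exact (g.re i ξ hξ).2
    _ = ENNReal.ofReal (N * C / Λ + δ' * ∫ ξ in cell P, a ξ) := by
        rw [g.sum (hai.mono_set (cell_sub_box P)) h0, Finset.sum_add_distrib, Finset.sum_const,
          Finset.card_univ, Fintype.card_fin, ← Finset.mul_sum,
          ENNReal.ofReal_add (by positivity) (mul_nonneg hδ' (Finset.sum_nonneg fun i _ => hα i)),
          ENNReal.ofReal_mul hδ', ENNReal.ofReal_sum_of_nonneg fun i _ => hα i]
        congr 1
        rw [← ENNReal.ofReal_mul (by positivity), ← ENNReal.ofReal_nsmul]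
        congr 1
        rw [nsmul_eq_mul]
        ring

theorem pt_bd {δ C Λ : ℝ} {θ : ℝ} (hC : 0 ≤ C) (hΛ : 0 < Λ)
    (g : Grid P b s N E c τ) {a : ℂ → ℝ} (ha : Continuous a)
    (hap : ∀ z, 0 ≤ a z) (h0 : ∀ z, b ≤ |z.re| → a z = 0)
    (h3 : ∀ w w' : ℂ, δ ≤ w.re → δ ≤ w'.re →
      1 - cexp (-(θ * w)) ≠ 0 ∧ |G θ w| ≤ C ∧ |G θ w - G θ w'| ≤ C * ‖w - w'‖)
    {z : ℂ} (hz : b + δ ≤ z.re) (hK : IntegrableOn (fun ξ => G θ (z - ξ)) (box P)) :
    |(∑ i, (⌊Λ * ∫ ξ in E i, a ξ⌋₊ : ℝ) * G θ (z - c i)) / Λ -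
      ∫ ξ in cell P, G θ (z - ξ) * a ξ| ≤ N * C / Λ + C * s * ∫ ξ in cell P, a ξ := by
  have hai : IntegrableOn a (box P) := ha.continuousOn.integrableOn_compact (isCompact_box P)
  have hα : ∀ i, 0 ≤ ∫ ξ in E i, a ξ := fun i => integral_nonneg hap
  have hre : ∀ ξ : ℂ, |ξ.re| ≤ b → δ ≤ (z - ξ).re := by
    intro ξ hξ
    rw [Complex.sub_re]
    have := (abs_le.1 hξ).2
    linarith
  rw [decomp g ha h0 hK, g.sum (hai.mono_set (cell_sub_box P)) h0]
  refine (Finset.abs_sum_le_sum_abs _ _).trans ?_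
  calc ∑ i, |((⌊Λ * ∫ ξ in E i, a ξ⌋₊ : ℝ) / Λ - ∫ ξ in E i, a ξ) * G θ (z - c i) +
        ∫ ξ in E i, (G θ (z - c i) - G θ (z - ξ)) * a ξ|
      ≤ ∑ i, (C / Λ + C * s * ∫ ξ in E i, a ξ) := by
        refine Finset.sum_le_sum fun i _ => (abs_add_le _ _).trans (add_le_add ?_ ?_)
        · rw [abs_mul]
          calc _ ≤ 1 / Λ * C := mul_le_mul (floor_bd hΛ (hα i))
                (h3 _ _ (hre _ (g.cre i)) (hre _ (g.cre i))).2.1 (abs_nonneg _) (by positivity)
            _ = C / Λ := by ring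
        · rw [← integral_const_mul, ← Real.norm_eq_abs]
          refine norm_integral_le_of_norm_le
            ((hai.mono_set ((g.sub i).trans (cell_sub_box P))).const_mul _) ?_
          refine (ae_restrict_iff' (g.me i)).2 (Eventually.of_forall fun ξ hξ => ?_)
          rw [norm_mul, Real.norm_of_nonneg (hap ξ)]
          refine mul_le_mul_of_nonneg_right ?_ (hap ξ)
          have h4 := (h3 _ _ (hre _ (g.cre i)) (hre _ (g.re i ξ hξ).1)).2.2
          refine (le_of_eq (Real.norm_eq_abs _)).trans (h4.trans ?_)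
          refine mul_le_mul_of_nonneg_left ?_ hC
          have e : z - c i - (z - ξ) = ξ - c i := by ring
          rw [e]
          exact (g.re i ξ hξ).2
    _ = N * C / Λ + C * s * ∑ i, ∫ ξ in E i, a ξ := by
        rw [Finset.sum_add_distrib, Finset.sum_const, Finset.card_univ, Fintype.card_fin,
          nsmul_eq_mul, ← Finset.mul_sum]
        ring

theorem pf_dis (hGRD : T_GRD) (hGL : T_GL) : T_DIS := by
  intro P b a hP hb hb1 ha hap haJ h0 R δ hR hδ
  set θ : ℝ := 2 * Real.pi / P with hθdef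
  have hθ : 0 < θ := by positivity
  obtain ⟨⟨C1, hC1⟩, hL2, hL3⟩ := hGL θ R hθ hR
  obtain ⟨C3, hC3, hL3'⟩ := hL3 δ hδ
  set m0 := ∫ ξ in cell P, a ξ with hm0
  have hm0' : 0 ≤ m0 := integral_nonneg hap
  obtain ⟨η, hη, hL2'⟩ := hL2 (δ / (2 * (m0 + 1))) (by positivity)
  set s := min η (δ / (2 * (C3 + 1) * (m0 + 1))) with hs
  have hs0 : 0 < s := lt_min hη (by positivity)
  obtain ⟨N, E, c, τ, g1, g2, g3, g4, g5, g6, g7, g8⟩ := hGRD P b s hP hb hb1 hs0
  have g : Grid P b s N E c τ := ⟨g1, g2, g3, g4, g5, g6, g7, g8⟩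
  have hC : (0 : ℝ) ≤ |C1| + C3 := by positivity
  refine ⟨max 1 (2 * N * (|C1| + C3) / δ), fun Λ hΛ => ?_⟩
  have hΛ1 : 1 ≤ Λ := (le_max_left _ _).trans hΛ
  have hΛ0 : 0 < Λ := by linarith
  have hΛ2 : 2 * N * (|C1| + C3) / δ ≤ Λ := (le_max_right _ _).trans hΛ
  have hN : N * (|C1| + C3) / Λ ≤ δ / 2 := by
    rw [div_le_iff₀ hδ] at hΛ2
    rw [div_le_iff₀ hΛ0]
    linarith
  have hN1 : N * |C1| / Λ ≤ δ / 2 := by
    refine le_trans ?_ hN
    gcongr
    linarith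
  have hN3 : N * C3 / Λ ≤ δ / 2 := by
    refine le_trans ?_ hN
    gcongr
    have := abs_nonneg C1
    linarith
  have hδm : δ / (2 * (m0 + 1)) * m0 ≤ δ / 2 := by
    rw [div_mul_eq_mul_div, div_le_div_iff₀ (by positivity) (by norm_num)]
    nlinarith
  have hsm : C3 * s * m0 ≤ δ / 2 := by
    have h1 : s * (2 * (C3 + 1) * (m0 + 1)) ≤ δ := by
      rw [← le_div_iff₀ (by positivity)]
      exact min_le_right _ _
    have h2 : C3 * m0 ≤ (C3 + 1) * (m0 + 1) := by nlinarith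
    nlinarith [mul_le_mul_of_nonneg_left h2 hs0.le]
  set m : Fin N → ℕ := fun i => ⌊Λ * ∫ ξ in E i, a ξ⌋₊ with hm
  obtain ⟨n, ζ, σ, hσ, hprod⟩ := exists_points m c τ (fun i => by
    simp only [hm]
    rw [g.inv haJ i]) g7
  have hpr : ∀ z : ℂ, ∏ j, (1 - cexp (-((θ : ℝ) * (z - ζ j)))) =
      ∏ i, (1 - cexp (-((θ : ℝ) * (z - c i)))) ^ m i := fun z =>
    hprod fun w => 1 - cexp (-((θ : ℝ) * (z - w)))
  have hlog : ∀ z : ℂ, (∀ i, 1 - cexp (-((θ : ℝ) * (z - c i))) ≠ 0) →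
      Real.log ‖∏ j, (1 - cexp (-((θ : ℝ) * (z - ζ j))))‖ =
        ∑ i, (m i : ℝ) * G θ (z - c i) := by
    intro z hz
    rw [hpr, log_prod_pow m _ hz]
    rfl
  have hθc : (2 * Real.pi / P : ℝ) = θ := rfl
  refine ⟨n, ζ, σ, hσ, ?_, fun z hz => ?_⟩
  · refine le_trans (le_of_eq ?_) ((L1_bd hGL hθ hR (abs_nonneg C1) hΛ0 (by positivity) g hb1 ha
      hap h0 (fun ζ hζ => (hC1 ζ hζ).trans (ENNReal.ofReal_le_ofReal (le_abs_self _)))
      fun ζ ζ' h1 h2 h3 => hL2' ζ ζ' h1 h2 (h3.trans (min_le_left _ _))).trans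
      (ENNReal.ofReal_le_ofReal ?_))
    · unfold L1
      refine lintegral_congr_ae (ae_restrict_of_ae ?_)
      have h5 : ∀ᵐ z : ℂ, ∀ i, 1 - cexp (-((θ : ℝ) * (z - c i))) ≠ 0 :=
        ae_all_iff.2 fun i => ae_factor_ne θ hθ (c i)
      filter_upwards [h5] with z hz
      rw [hlog z hz]
    · linarith
  · have hre : ∀ i, δ ≤ (z - c i).re := by
      intro i
      rw [Complex.sub_re]
      have := (abs_le.1 (g5 i)).2
      linarith
    have hne : ∀ i, 1 - cexp (-((θ : ℝ) * (z - c i))) ≠ 0 := fun i =>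
      (hL3' _ _ (hre i) (hre i)).1
    refine ⟨?_, ?_⟩
    · rw [hpr]
      exact Finset.prod_ne_zero_iff.2 fun i _ => pow_ne_zero _ (hne i)
    · rw [hlog z hne]
      refine (pt_bd hC3 hΛ0 g ha hap h0 hL3' hz (integrableOn_G_sub hGL hθ P z)).trans ?_
      linarith

end Pool.Agent.H35.LIM
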