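import Pool.Agent.H20.LIM.Targets

/-!
# Module DIS, first part: the kernel, the grid, the product
-/

set_option autoImplicit false

open Complex MeasureTheory Set Filter Topology Metric

namespace Pool.Agent.H35.LIM

open Pool.Agent.H20.LIM Pool.Agent.H23.GLM Pool.Agent.H23.DZ

/-- the closed cell -/
def box (P : ℝ) : Set ℂ := Icc (-1 : ℝ) 1 ×ℂ Icc 0 P

theorem mem_box {P : ℝ} {z : ℂ} : z ∈ box P ↔ |z.re| ≤ 1 ∧ 0 ≤ z.im ∧ z.im ≤ P := by
  unfold box
  rw [Complex.mem_reProdIm, mem_Icc, mem_Icc, abs_le]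

theorem cell_sub_box (P : ℝ) : cell P ⊆ box P := fun _z hz =>
  mem_box.2 ⟨hz.1, hz.2.1, hz.2.2.le⟩

theorem isCompact_box (P : ℝ) : IsCompact (box P) := isCompact_Icc.reProdIm isCompact_Icc

theorem measurableSet_cell (P : ℝ) : MeasurableSet (cell P) := by
  have h1 : MeasurableSet {ζ : ℂ | |ζ.re| ≤ 1} :=
    measurableSet_le (by fun_prop) measurable_const
  have h2 : MeasurableSet {ζ : ℂ | 0 ≤ ζ.im} := measurableSet_le measurable_const (by fun_prop)
  have h3 : MeasurableSet {ζ : ℂ | ζ.im < P} := measurableSet_lt (by fun_prop) measurable_const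
  exact h1.inter (h2.inter h3)

theorem measurable_G (θ : ℝ) : Measurable (G θ) := by
  unfold G
  exact Real.measurable_log.comp (by fun_prop)

theorem integrableOn_G (hGL : T_GL) {θ R : ℝ} (hθ : 0 < θ) (hR : 0 < R) :
    IntegrableOn (G θ) (closedBall 0 R) := by
  obtain ⟨⟨C, hC⟩, -⟩ := hGL θ R hθ hR
  refine ⟨(measurable_G θ).aestronglyMeasurable, ?_⟩
  have h1 := hC 0 (by simp)
  unfold L1 at h1
  simp only [sub_zero] at h1
  exact lt_of_le_of_lt h1 ENNReal.ofReal_lt_top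

theorem integrableOn_G_sub (hGL : T_GL) {θ : ℝ} (hθ : 0 < θ) (P : ℝ) (z : ℂ) :
    IntegrableOn (fun ξ => G θ (z - ξ)) (box P) := by
  obtain ⟨R, hR⟩ := (isCompact_box P).isBounded.exists_norm_le
  have hR1 : 0 < ‖z‖ + |R| + 1 := by positivity
  have h1 := integrableOn_G hGL hθ hR1
  have h2 : MeasurePreserving (fun ξ : ℂ => z - ξ) volume volume :=
    Measure.measurePreserving_sub_left volume z
  have h3 : MeasurableEmbedding (fun ξ : ℂ => z - ξ) :=
    (Homeomorph.subLeft z).measurableEmbedding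
  have h4 := (h2.integrableOn_comp_preimage h3 (f := G θ) (s := closedBall 0 (‖z‖ + |R| + 1))).2 h1
  refine h4.mono_set fun ξ hξ => ?_
  rw [mem_preimage, mem_closedBall_zero_iff]
  calc ‖z - ξ‖ ≤ ‖z‖ + ‖ξ‖ := norm_sub_le _ _
    _ ≤ ‖z‖ + |R| + 1 := by
      have := hR ξ hξ
      have := le_abs_self R
      linarith

/-- the grid -/
structure Grid (P b s : ℝ) (N : ℕ) (E : Fin N → Set ℂ) (c : Fin N → ℂ)
    (τ : Equiv.Perm (Fin N)) : Prop where
  me : ∀ i, MeasurableSet (E i)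
  dj : Pairwise fun i j => Disjoint (E i) (E j)
  sub : ∀ i, E i ⊆ cell P
  re : ∀ i, ∀ ζ ∈ E i, |ζ.re| ≤ b ∧ ‖ζ - c i‖ ≤ s
  cre : ∀ i, |(c i).re| ≤ b
  cov : ∀ᵐ ζ : ℂ, ζ ∈ cell P → |ζ.re| < b → ∃ i, ζ ∈ E i
  ct : ∀ i, c (τ i) = -(starRingEnd ℂ) (c i)
  et : ∀ i, E (τ i) = (fun z : ℂ => -(starRingEnd ℂ) z) ⁻¹' E i

section grid

variable {P b s : ℝ} {N : ℕ} {E : Fin N → Set ℂ} {c : Fin N → ℂ} {τ : Equiv.Perm (Fin N)}

theorem Grid.sum (g : Grid P b s N E c τ) {f : ℂ → ℝ} (hf : IntegrableOn f (cell P))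
    (h0 : ∀ z, b ≤ |z.re| → f z = 0) : ∫ ξ in cell P, f ξ = ∑ i, ∫ ξ in E i, f ξ := by
  rw [← integral_iUnion_fintype g.me g.dj fun i => hf.mono_set (g.sub i)]
  refine setIntegral_eq_of_subset_of_ae_sdiff_eq_zero (measurableSet_cell P).nullMeasurableSet
    (iUnion_subset g.sub) ?_
  filter_upwards [g.cov] with z hz hzt
  refine h0 z ?_
  by_contra h
  obtain ⟨i, hi⟩ := hz hzt.1 (not_le.1 h)
  exact hzt.2 (mem_iUnion.2 ⟨i, hi⟩)

/-- the reflection -/
noncomputable def JJ : ℂ ≃ₗᵢ[ℝ] ℂ := Complex.conjLIE.trans (LinearIsometryEquiv.neg ℝ)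

theorem JJ_apply (z : ℂ) : JJ z = -(starRingEnd ℂ) z := rfl

theorem Grid.inv (g : Grid P b s N E c τ) {a : ℂ → ℝ} (ha : ∀ z, a (-(starRingEnd ℂ) z) = a z)
    (i : Fin N) : ∫ ξ in E (τ i), a ξ = ∫ ξ in E i, a ξ := by
  have h1 : MeasurePreserving JJ volume volume := JJ.measurePreserving
  have h2 : MeasurableEmbedding JJ := JJ.toHomeomorph.measurableEmbedding
  have h3 := h1.setIntegral_preimage_emb h2 a (E i)
  have h4 : ∀ z, a (JJ z) = a z := fun z => ha z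
  simp only [h4] at h3
  rw [g.et i]
  exact h3

end grid

/-! ### the product -/

theorem ae_factor_ne (θ : ℝ) (hθ : 0 < θ) (c : ℂ) :
    ∀ᵐ z : ℂ, 1 - cexp (-(θ * (z - c))) ≠ 0 := by
  have h1 : (range fun n : ℤ => c - n * (2 * Real.pi * I) / θ).Countable := countable_range _
  have h2 : ∀ᵐ z : ℂ, z ∉ range fun n : ℤ => c - n * (2 * Real.pi * I) / θ :=
    measure_eq_zero_iff_ae_notMem.1 (h1.measure_zero volume)
  filter_upwards [h2] with z hz h
  refine hz ?_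
  have h3 : cexp (-(θ * (z - c))) = 1 := (sub_eq_zero.1 h).symm
  obtain ⟨n, hn⟩ := Complex.exp_eq_one_iff.1 h3
  refine ⟨n, ?_⟩
  have hθ' : (θ : ℂ) ≠ 0 := by exact_mod_cast hθ.ne'
  have h4 : z - c = -(n * (2 * Real.pi * I)) / θ := by
    rw [← hn]
    field_simp
  show c - n * (2 * Real.pi * I) / θ = z
  linear_combination -h4

/-- the points with multiplicities -/
theorem exists_points {N : ℕ} (m : Fin N → ℕ) (c : Fin N → ℂ) (τ : Equiv.Perm (Fin N))
    (hm : ∀ i, m i = m (τ i)) (hc : ∀ i, c (τ i) = -(starRingEnd ℂ) (c i)) :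
    ∃ (n : ℕ) (ζ : Fin n → ℂ) (σ : Equiv.Perm (Fin n)),
      (∀ j, ζ (σ j) = -(starRingEnd ℂ) (ζ j)) ∧
      ∀ f : ℂ → ℂ, ∏ j, f (ζ j) = ∏ i, f (c i) ^ m i := by
  classical
  set e := Fintype.equivFin (Σ i : Fin N, Fin (m i)) with he
  set S : Equiv.Perm (Σ i : Fin N, Fin (m i)) :=
    Equiv.sigmaCongr τ (fun i => finCongr (hm i)) with hS
  refine ⟨_, fun j => c (e.symm j).1, (e.symm.trans S).trans e, fun j => ?_, fun f => ?_⟩
  · show c (e.symm (e (S (e.symm j)))).1 = _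
    rw [Equiv.symm_apply_apply]
    exact hc _
  · rw [e.symm.prod_comp (fun x : (Σ i : Fin N, Fin (m i)) => f (c x.1)), Fintype.prod_sigma]
    refine Finset.prod_congr rfl fun i _ => ?_
    show ∏ _y : Fin (m i), f (c i) = _
    rw [Finset.prod_const, Finset.card_univ, Fintype.card_fin]

theorem log_prod_pow {N : ℕ} (m : Fin N → ℕ) (f : Fin N → ℂ) (hf : ∀ i, f i ≠ 0) :
    Real.log ‖∏ i, f i ^ m i‖ = ∑ i, m i * Real.log ‖f i‖ := by
  rw [norm_prod, Real.log_prod]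
  · refine Finset.sum_congr rfl fun i _ => ?_
    rw [norm_pow, Real.log_pow]
  · intro i _
    rw [norm_pow]
    exact pow_ne_zero _ (norm_ne_zero_iff.2 (hf i))

end Pool.Agent.H35.LIM
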